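import Mathlib

set_option autoImplicit false
set_option linter.unusedSectionVars false
set_option linter.unusedVariables false

/-!
# Degrees of polynomial growth of self-similar Schreier graphs

The set of all degrees of polynomial growth of Schreier graphs of finitely generated self-similar
groups at boundary points with infinite orbit is exactly `[1, ∞)`.
-/

namespace Pool.Agent.Results.MP_e8676d_al.GrowthDegrees

open Filter Topology

section Definitions

/-- The group `Aut T` of automorphisms of the rooted tree whose vertices are the finite words over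
the alphabet `X`: permutations of the set of finite words that keep the length and commute with
passing to initial segments (`w.take n` is the initial segment of `w` of length `n`). -/
def treeAut (X : Type) : Subgroup (Equiv.Perm (List X)) where
  carrier := {g | ∀ w : List X, (g w).length = w.length ∧ ∀ n : ℕ, (g w).take n = g (w.take n)}
  mul_mem' := by
    intro a b ha hb w
    refine ⟨?_, fun n => ?_⟩
    · simp only [Equiv.Perm.mul_apply, (ha _).1, (hb _).1]
    · simp only [Equiv.Perm.mul_apply, (ha _).2, (hb _).2]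
  one_mem' := by
    intro w
    simp
  inv_mem' := by
    intro a ha w
    have h1 : ∀ u : List X, (a⁻¹ u).length = u.length := by
      intro u
      have := (ha (a⁻¹ u)).1
      simpa using this.symm
    refine ⟨h1 w, fun n => ?_⟩
    have := (ha (a⁻¹ w)).2 n
    apply a.injective
    simpa using this.symm

/-- The initial segment of length `n` of the infinite word `ξ`. -/
def trunc {X : Type} (ξ : ℕ → X) (n : ℕ) : List X := (List.range n).map ξ

/-- The action of a tree automorphism on the boundary (infinite words `ξ : ℕ → X`): the `n`-th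
letter of `g ξ` is the last letter of `g (ξ₀ ξ₁ ⋯ ξₙ)`. -/
def bdry {X : Type} (g : treeAut X) (ξ : ℕ → X) : ℕ → X :=
  fun n => (g.1 (trunc ξ (n + 1))).getD n (ξ n)

theorem length_trunc {X : Type} (ξ : ℕ → X) (n : ℕ) : (trunc ξ n).length = n := by
  simp [trunc]

theorem take_trunc {X : Type} (ξ : ℕ → X) (m n : ℕ) : (trunc ξ n).take m = trunc ξ (min m n) := by
  simp only [trunc, ← List.map_take, List.take_range]

theorem trunc_ext {X : Type} {ξ η : ℕ → X} (h : ∀ n, trunc ξ n = trunc η n) : ξ = η := by
  funext n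
  have := h (n + 1)
  simp only [trunc, List.range_succ, List.map_append, List.map_cons, List.map_nil] at this
  have := List.append_inj_right' this (by simp)
  simpa using this

theorem trunc_bdry {X : Type} (g : treeAut X) (ξ : ℕ → X) (n : ℕ) :
    trunc (bdry g ξ) n = g.1 (trunc ξ n) := by
  apply List.ext_getElem
  · rw [length_trunc, (g.2 _).1, length_trunc]
  · intro i h1 h2
    have hi : i < n := by simpa [length_trunc] using h1
    simp only [trunc, List.getElem_map, List.getElem_range, bdry]
    have hlen : ((g.1 (trunc ξ (i + 1)))).length = i + 1 := by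
      rw [(g.2 _).1, length_trunc]
    have h3 : (g.1 (trunc ξ n)).take (i + 1) = g.1 (trunc ξ (i + 1)) := by
      rw [(g.2 _).2, take_trunc]
      congr 2
      omega
    have h4 : (g.1 (trunc ξ (i + 1)))[i]'(by omega) = (g.1 (trunc ξ n))[i]'h2 := by
      have : ((g.1 (trunc ξ n)).take (i + 1))[i]'(by
          rw [h3]; omega) = (g.1 (trunc ξ n))[i]'h2 := by
        simp
      rw [← this]
      congr 1
      exact h3.symm
    have h5 : (g.1 (trunc ξ (i + 1))).getD i (ξ i) = (g.1 (trunc ξ (i + 1)))[i]'(by omega) := by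
      rw [List.getD_eq_getElem?_getD, List.getElem?_eq_getElem (by omega)]
      rfl
    exact h5.trans h4

/-- The action of the group of tree automorphisms on the boundary. -/
instance {X : Type} : MulAction (treeAut X) (ℕ → X) where
  smul := bdry
  one_smul := by
    intro ξ
    apply trunc_ext
    intro n
    change trunc (bdry 1 ξ) n = _
    rw [trunc_bdry]
    rfl
  mul_smul := by
    intro g h ξ
    apply trunc_ext
    intro n
    change trunc (bdry (g * h) ξ) n = trunc (bdry g (bdry h ξ)) n
    rw [trunc_bdry, trunc_bdry, trunc_bdry]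
    rfl

/-- A group `L` of tree automorphisms is self-similar if for every `g ∈ L` and every letter `x`
there are `h ∈ L` and a letter `y` with `g (x w) = y h(w)` for all finite words `w`. -/
def IsSelfSimilar {X : Type} (L : Subgroup (treeAut X)) : Prop :=
  ∀ g ∈ L, ∀ x : X, ∃ h ∈ L, ∃ y : X, ∀ w : List X, g.1 (x :: w) = y :: h.1 w

/-- The Schreier graph of the group `L` with respect to the subgroup `P` and the generating
set `S`: the vertices are the cosets `g P`, and `a` and `s a` are joined for `s ∈ S ∪ S⁻¹`. -/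
def schreier {L : Type} [Group L] (P : Subgroup L) (S : Set L) : SimpleGraph (L ⧸ P) :=
  SimpleGraph.fromRel (fun a b => ∃ s ∈ S, s • a = b)

/-- The ball of radius `n` about the vertex `v` for the path metric of the graph `Γ`. -/
def ball {V : Type} (Γ : SimpleGraph V) (v : V) (n : ℕ) : Set V := {u | Γ.edist v u ≤ n}

/-- The graph `Γ` has polynomial growth of degree `α`:
`log |B_v(n)| / log n → α` for every vertex `v`. -/
def HasPolynomialGrowth {V : Type} (Γ : SimpleGraph V) (α : ℝ) : Prop :=
  ∀ v : V, Tendsto (fun n : ℕ => Real.log ((ball Γ v n).ncard : ℝ) / Real.log (n : ℝ))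
    atTop (𝓝 α)

/-- The set `𝒟` of all degrees of polynomial growth: all real `α ≥ 0` for which there are `d ≥ 2`,
a self-similar group `L` acting on the `d`-regular rooted tree, a finite generating set `S` of `L`
and a boundary point `ξ` with infinite `L`-orbit such that the Schreier graph of `L` with respect
to the stabiliser of `ξ` and `S` has polynomial growth of degree `α`. -/
def degrees : Set ℝ :=
  {α | 0 ≤ α ∧ ∃ d : ℕ, 2 ≤ d ∧ ∃ L : Subgroup (treeAut (Fin d)), IsSelfSimilar L ∧
    ∃ S : Set L, S.Finite ∧ Subgroup.closure S = ⊤ ∧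
    ∃ ξ : ℕ → Fin d, (MulAction.orbit L ξ).Infinite ∧
      HasPolynomialGrowth (schreier (MulAction.stabilizer L ξ) S) α}

end Definitions

section Graph

variable {V : Type} {Γ : SimpleGraph V}

theorem mem_ball_iff {v u : V} {n : ℕ} :
    u ∈ ball Γ v n ↔ ∃ p : Γ.Walk v u, p.length ≤ n := by
  constructor
  · intro h
    have h' : Γ.edist v u ≤ (n : ℕ∞) := h
    have hne : Γ.edist v u ≠ ⊤ := by
      intro h2
      rw [h2] at h'
      simp at h'
    obtain ⟨p, hp⟩ := SimpleGraph.exists_walk_of_edist_ne_top hne
    refine ⟨p, ?_⟩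
    rw [← hp] at h'
    exact_mod_cast h'
  · rintro ⟨p, hp⟩
    change Γ.edist v u ≤ (n : ℕ∞)
    exact p.edist_le.trans (by exact_mod_cast hp)

theorem self_mem_ball {v : V} {n : ℕ} : v ∈ ball Γ v n :=
  mem_ball_iff.2 ⟨SimpleGraph.Walk.nil, by simp⟩

theorem ball_mono {v : V} {m n : ℕ} (h : m ≤ n) : ball Γ v m ⊆ ball Γ v n := by
  intro u hu
  obtain ⟨p, hp⟩ := mem_ball_iff.1 hu
  exact mem_ball_iff.2 ⟨p, hp.trans h⟩

theorem ball_zero {v : V} : ball Γ v 0 = {v} := by
  ext u
  constructor
  · intro hu
    obtain ⟨p, hp⟩ := mem_ball_iff.1 hu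
    have := SimpleGraph.Walk.eq_of_length_eq_zero (p := p) (by omega)
    exact this.symm
  · rintro rfl
    exact self_mem_ball

theorem mem_ball_succ {v u w : V} {n : ℕ} (hu : u ∈ ball Γ v n) (h : Γ.Adj u w) :
    w ∈ ball Γ v (n + 1) := by
  obtain ⟨p, hp⟩ := mem_ball_iff.1 hu
  refine mem_ball_iff.2 ⟨p.concat h, ?_⟩
  rw [SimpleGraph.Walk.length_concat]
  omega

theorem exists_of_mem_ball_succ {v w : V} {n : ℕ} (hw : w ∈ ball Γ v (n + 1)) :
    w ∈ ball Γ v n ∨ ∃ u ∈ ball Γ v n, Γ.Adj u w := by
  obtain ⟨p, hp⟩ := mem_ball_iff.1 hw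
  by_cases h : p.length ≤ n
  · exact Or.inl (mem_ball_iff.2 ⟨p, h⟩)
  · right
    have hpos : p.reverse.length = n + 1 := by
      rw [SimpleGraph.Walk.length_reverse]; omega
    cases hq : p.reverse with
    | nil => rw [hq] at hpos; simp at hpos
    | cons h1 q =>
      rw [hq] at hpos
      simp only [SimpleGraph.Walk.length_cons] at hpos
      exact ⟨_, mem_ball_iff.2 ⟨q.reverse, by rw [SimpleGraph.Walk.length_reverse]; omega⟩,
        h1.symm⟩

theorem ball_trans {v u w : V} {m n : ℕ} (hu : u ∈ ball Γ v m) (hw : w ∈ ball Γ u n) :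
    w ∈ ball Γ v (m + n) := by
  obtain ⟨p, hp⟩ := mem_ball_iff.1 hu
  obtain ⟨q, hq⟩ := mem_ball_iff.1 hw
  refine mem_ball_iff.2 ⟨p.append q, ?_⟩
  rw [SimpleGraph.Walk.length_append]
  omega

theorem ball_symm {v u : V} {n : ℕ} (hu : u ∈ ball Γ v n) : v ∈ ball Γ u n := by
  obtain ⟨p, hp⟩ := mem_ball_iff.1 hu
  exact mem_ball_iff.2 ⟨p.reverse, by rw [SimpleGraph.Walk.length_reverse]; omega⟩

/-- In an infinite connected graph with finite balls, the ball of radius `n` has more than `n`
elements. -/
theorem lt_ncard_ball (hconn : ∀ v u : V, Γ.Reachable v u) (hinf : Infinite V)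
    (hfin : ∀ (v : V) (n : ℕ), (ball Γ v n).Finite) (v : V) (n : ℕ) :
    n < (ball Γ v n).ncard := by
  induction n with
  | zero => rw [ball_zero]; simp
  | succ n ih =>
    have hss : ball Γ v n ⊂ ball Γ v (n + 1) := by
      refine ssubset_of_subset_not_subset (ball_mono (Nat.le_succ n)) ?_
      intro hsub
      have hall : ∀ u, u ∈ ball Γ v n := by
        intro u
        obtain ⟨p⟩ := hconn v u
        have key : ∀ {a b : V} (q : Γ.Walk a b), a ∈ ball Γ v n → b ∈ ball Γ v n := by
          intro a b q
          induction q with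
          | nil => exact id
          | cons hadj q ihq =>
            intro ha
            exact ihq (hsub (mem_ball_succ ha hadj))
        exact key p self_mem_ball
      have : (Set.univ : Set V).Finite := (hfin v n).subset (fun u _ => hall u)
      exact Set.infinite_univ this
    have := Set.ncard_lt_ncard hss (hfin v (n + 1))
    omega

theorem one_le_of_hasPolynomialGrowth (hconn : ∀ v u : V, Γ.Reachable v u) (hinf : Infinite V)
    (hfin : ∀ (v : V) (n : ℕ), (ball Γ v n).Finite) {α : ℝ} (h : HasPolynomialGrowth Γ α) :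
    1 ≤ α := by
  obtain ⟨v⟩ := hinf.nonempty
  refine ge_of_tendsto (h v) ?_
  filter_upwards [eventually_ge_atTop 2] with n hn
  have hn' : (1 : ℝ) < n := by exact_mod_cast hn
  have hlog : 0 < Real.log n := Real.log_pos hn'
  rw [le_div_iff₀ hlog, one_mul]
  apply Real.log_le_log (by positivity)
  exact_mod_cast (lt_ncard_ball hconn hinf hfin v n).le

/-- Two-sided polynomial bounds for the balls about one vertex of a connected graph with finite
balls give polynomial growth. -/
theorem hasPolynomialGrowth_of_bounds (hconn : ∀ v u : V, Γ.Reachable v u)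
    (hfin : ∀ (v : V) (n : ℕ), (ball Γ v n).Finite) {α c C : ℝ} (hα : 0 ≤ α) (hc : 0 < c)
    (v₀ : V) (hlow : ∀ n : ℕ, 2 ≤ n → c * (n : ℝ) ^ α ≤ (ball Γ v₀ n).ncard)
    (hup : ∀ n : ℕ, 2 ≤ n → ((ball Γ v₀ n).ncard : ℝ) ≤ C * (n : ℝ) ^ α) :
    HasPolynomialGrowth Γ α := by
  intro v
  obtain ⟨p⟩ := hconn v₀ v
  set d := p.length with hd
  have hv : v ∈ ball Γ v₀ d := mem_ball_iff.2 ⟨p, le_rfl⟩
  have hC : 0 < C := by
    have h1 := hlow 2 le_rfl
    have h2 := hup 2 le_rfl
    have h3 : (0 : ℝ) < ((2 : ℕ) : ℝ) ^ α := by positivity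
    by_contra hneg
    have : c * ((2 : ℕ) : ℝ) ^ α > 0 := by positivity
    have : C * ((2 : ℕ) : ℝ) ^ α ≤ 0 := mul_nonpos_of_nonpos_of_nonneg (not_lt.1 hneg) h3.le
    linarith
  -- upper bound
  have hup' : ∀ n : ℕ, 2 ≤ n → d ≤ n →
      ((ball Γ v n).ncard : ℝ) ≤ (C * 2 ^ α) * (n : ℝ) ^ α := by
    intro n hn hdn
    have hsub : ball Γ v n ⊆ ball Γ v₀ (d + n) := fun u hu => ball_trans hv hu
    have h1 : ((ball Γ v n).ncard : ℝ) ≤ (ball Γ v₀ (d + n)).ncard := by
      exact_mod_cast Set.ncard_le_ncard hsub (hfin _ _)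
    have h2 := hup (d + n) (by omega)
    have h3 : (((d + n : ℕ) : ℝ)) ^ α ≤ (2 * (n : ℝ)) ^ α := by
      apply Real.rpow_le_rpow (by positivity) _ hα
      have : ((d + n : ℕ) : ℝ) ≤ ((2 * n : ℕ) : ℝ) := by exact_mod_cast (by omega)
      simpa using this
    rw [Real.mul_rpow (by norm_num) (by positivity)] at h3
    calc ((ball Γ v n).ncard : ℝ) ≤ _ := h1
      _ ≤ C * ((d + n : ℕ) : ℝ) ^ α := h2
      _ ≤ C * (2 ^ α * (n : ℝ) ^ α) := by gcongr
      _ = _ := by ring
  have hlow' : ∀ n : ℕ, 4 ≤ n → 2 * d ≤ n →
      (c * (1 / 4) ^ α) * (n : ℝ) ^ α ≤ ((ball Γ v n).ncard : ℝ) := by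
    intro n hn hdn
    have hsub : ball Γ v₀ (n / 2) ⊆ ball Γ v n := by
      intro u hu
      exact ball_mono (by omega) (ball_trans (ball_symm hv) hu)
    have h1 : ((ball Γ v₀ (n / 2)).ncard : ℝ) ≤ (ball Γ v n).ncard := by
      exact_mod_cast Set.ncard_le_ncard hsub (hfin _ _)
    have h2 := hlow (n / 2) (by omega)
    have h3 : ((1 / 4 : ℝ) * (n : ℝ)) ^ α ≤ ((n / 2 : ℕ) : ℝ) ^ α := by
      apply Real.rpow_le_rpow (by positivity) _ hα
      have : (n : ℝ) ≤ ((4 * (n / 2) : ℕ) : ℝ) := by exact_mod_cast (by omega)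
      push_cast at this ⊢
      linarith
    rw [Real.mul_rpow (by norm_num) (by positivity)] at h3
    calc (c * (1 / 4) ^ α) * (n : ℝ) ^ α = c * ((1 / 4) ^ α * (n : ℝ) ^ α) := by ring
      _ ≤ c * ((n / 2 : ℕ) : ℝ) ^ α := by gcongr
      _ ≤ _ := h2
      _ ≤ _ := h1
  -- logarithms
  have hlogtend : Tendsto (fun n : ℕ => Real.log (n : ℝ)) atTop atTop :=
    Real.tendsto_log_atTop.comp tendsto_natCast_atTop_atTop
  have aux : ∀ K : ℝ, Tendsto (fun n : ℕ => (K + α * Real.log (n : ℝ)) / Real.log (n : ℝ))
      atTop (𝓝 α) := by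
    intro K
    have h1 : Tendsto (fun n : ℕ => K / Real.log (n : ℝ)) atTop (𝓝 0) :=
      hlogtend.const_div_atTop K
    have h2 : Tendsto (fun n : ℕ => K / Real.log (n : ℝ) + α) atTop (𝓝 (0 + α)) :=
      h1.add tendsto_const_nhds
    rw [zero_add] at h2
    refine h2.congr' ?_
    filter_upwards [eventually_ge_atTop 2] with n hn
    have hn' : (1 : ℝ) < n := by exact_mod_cast hn
    have hlog : 0 < Real.log n := Real.log_pos hn'
    field_simp
  refine tendsto_of_tendsto_of_tendsto_of_le_of_le' (aux (Real.log (c * (1 / 4) ^ α)))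
    (aux (Real.log (C * 2 ^ α))) ?_ ?_
  · filter_upwards [eventually_ge_atTop (4 + 2 * d)] with n hn
    have hn' : (1 : ℝ) < n := by exact_mod_cast (by omega : 1 < n)
    have hlog : 0 < Real.log n := Real.log_pos hn'
    have hn0 : (0 : ℝ) < n := by linarith
    apply div_le_div_of_nonneg_right _ hlog.le
    rw [← Real.log_rpow hn0, ← Real.log_mul (by positivity) (by positivity)]
    exact Real.log_le_log (by positivity) (hlow' n (by omega) (by omega))
  · filter_upwards [eventually_ge_atTop (4 + 2 * d)] with n hn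
    have hn' : (1 : ℝ) < n := by exact_mod_cast (by omega : 1 < n)
    have hlog : 0 < Real.log n := Real.log_pos hn'
    have hn0 : (0 : ℝ) < n := by linarith
    apply div_le_div_of_nonneg_right _ hlog.le
    rw [← Real.log_rpow hn0, ← Real.log_mul (by positivity) (by positivity)]
    apply Real.log_le_log _ (hup' n (by omega) (by omega))
    have : 0 < (ball Γ v n).ncard := (Set.ncard_pos (hfin _ _)).2 ⟨v, self_mem_ball⟩
    exact_mod_cast this

end Graph

section Schreier

variable {L : Type} [Group L] {P : Subgroup L} {S : Set L}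

theorem schreier_adj {a b : L ⧸ P} (h : (schreier P S).Adj a b) :
    ∃ s ∈ S, s • a = b ∨ s • b = a := by
  rw [schreier, SimpleGraph.fromRel_adj] at h
  rcases h.2 with ⟨s, hs, h⟩ | ⟨s, hs, h⟩
  · exact ⟨s, hs, Or.inl h⟩
  · exact ⟨s, hs, Or.inr h⟩

theorem smul_mem_ball {v a : L ⧸ P} {n : ℕ} (ha : a ∈ ball (schreier P S) v n) {s : L}
    (hs : s ∈ S) : s • a ∈ ball (schreier P S) v (n + 1) := by
  by_cases h : s • a = a
  · rw [h]; exact ball_mono (Nat.le_succ n) ha
  · refine mem_ball_succ ha ?_
    rw [schreier, SimpleGraph.fromRel_adj]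
    exact ⟨fun h' => h h'.symm, Or.inl ⟨s, hs, rfl⟩⟩

theorem inv_smul_mem_ball {v a : L ⧸ P} {n : ℕ} (ha : a ∈ ball (schreier P S) v n) {s : L}
    (hs : s ∈ S) : s⁻¹ • a ∈ ball (schreier P S) v (n + 1) := by
  by_cases h : s⁻¹ • a = a
  · rw [h]; exact ball_mono (Nat.le_succ n) ha
  · refine mem_ball_succ ha ?_
    rw [schreier, SimpleGraph.fromRel_adj]
    exact ⟨fun h' => h h'.symm, Or.inr ⟨s, hs, by simp⟩⟩

theorem ball_finite (hS : S.Finite) (v : L ⧸ P) (n : ℕ) :
    (ball (schreier P S) v n).Finite := by
  induction n with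
  | zero => rw [ball_zero]; exact Set.finite_singleton v
  | succ n ih =>
    have hfin : (ball (schreier P S) v n ∪
        (⋃ s ∈ S, (fun a => s • a) '' ball (schreier P S) v n) ∪
        (⋃ s ∈ S, (fun a => s⁻¹ • a) '' ball (schreier P S) v n)).Finite := by
      refine (ih.union ?_).union ?_
      · exact hS.biUnion fun s _ => ih.image _
      · exact hS.biUnion fun s _ => ih.image _
    refine hfin.subset ?_
    intro w hw
    rcases exists_of_mem_ball_succ hw with h | ⟨u, hu, hadj⟩
    · exact Or.inl (Or.inl h)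
    · obtain ⟨s, hs, h | h⟩ := schreier_adj hadj
      · left; right
        simp only [Set.mem_iUnion]
        exact ⟨s, hs, u, hu, h⟩
      · right
        simp only [Set.mem_iUnion]
        refine ⟨s, hs, u, hu, ?_⟩
        simp [← h]

theorem schreier_reachable (hS : Subgroup.closure S = ⊤) (v u : L ⧸ P) :
    (schreier P S).Reachable v u := by
  have key : ∀ g : L, ∀ a : L ⧸ P, (schreier P S).Reachable a (g • a) := by
    intro g
    have hg : g ∈ Subgroup.closure S := by rw [hS]; trivial
    induction hg using Subgroup.closure_induction with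
    | mem s hs =>
      intro a
      obtain ⟨p, -⟩ := mem_ball_iff.1 (smul_mem_ball (self_mem_ball (v := a) (n := 0)) hs)
      exact ⟨p⟩
    | one => intro a; rw [one_smul]
    | mul g h _ _ ihg ihh =>
      intro a
      rw [mul_smul]
      exact (ihh a).trans (ihg _)
    | inv g _ ih =>
      intro a
      have := ih (g⁻¹ • a)
      rw [smul_inv_smul] at this
      exact this.symm
  induction v using QuotientGroup.induction_on with
  | H g =>
  induction u using QuotientGroup.induction_on with
  | H h =>
    have := key (h * g⁻¹) (g : L ⧸ P)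
    have h2 : (h * g⁻¹) • (g : L ⧸ P) = (h : L ⧸ P) := by
      rw [MulAction.Quotient.smul_coe, smul_eq_mul, inv_mul_cancel_right]
    rwa [h2] at this

end Schreier

section Construction

variable {X : Type}

/-- A permutation of the letters acting on the first letter of a word. -/
def rootedFun (σ : Equiv.Perm X) : List X → List X
  | [] => []
  | z :: w => σ z :: w

theorem length_rootedFun (σ : Equiv.Perm X) (w : List X) :
    (rootedFun σ w).length = w.length := by
  cases w <;> simp [rootedFun]

theorem take_rootedFun (σ : Equiv.Perm X) (w : List X) (n : ℕ) :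
    (rootedFun σ w).take n = rootedFun σ (w.take n) := by
  cases w <;> cases n <;> simp [rootedFun]

theorem rootedFun_rootedFun (σ τ : Equiv.Perm X) (w : List X) :
    rootedFun σ (rootedFun τ w) = rootedFun (σ * τ) w := by
  cases w <;> simp [rootedFun]

/-- The rooted automorphism given by a permutation of the letters. -/
def rooted (σ : Equiv.Perm X) : treeAut X :=
  ⟨{ toFun := rootedFun σ
     invFun := rootedFun σ⁻¹
     left_inv := by intro w; rw [rootedFun_rootedFun]; cases w <;> simp [rootedFun]
     right_inv := by intro w; rw [rootedFun_rootedFun]; cases w <;> simp [rootedFun] },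
    fun w => ⟨length_rootedFun σ w, take_rootedFun σ w⟩⟩

@[simp] theorem rooted_nil (σ : Equiv.Perm X) : (rooted σ).1 [] = [] := rfl

@[simp] theorem rooted_cons (σ : Equiv.Perm X) (z : X) (w : List X) :
    (rooted σ).1 (z :: w) = σ z :: w := rfl

variable [DecidableEq X] (ty : X → Bool) (o x : Bool → X)

/-- The directed map given by a permutation `σ` of the letters: it passes through the letters
`o j` and acts as `σ` on the letter following the first other letter, if this is an `x j`. -/
def dirFun (σ : Equiv.Perm X) : List X → List X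
  | [] => []
  | z :: w => if z = o (ty z) then z :: dirFun σ w
      else if z = x (ty z) then z :: rootedFun σ w else z :: w

theorem length_dirFun (σ : Equiv.Perm X) (w : List X) :
    (dirFun ty o x σ w).length = w.length := by
  induction w with
  | nil => rfl
  | cons z w ih =>
    simp only [dirFun]
    split_ifs
    · simp [ih]
    · simp [length_rootedFun]
    · rfl

theorem take_dirFun (σ : Equiv.Perm X) (w : List X) (n : ℕ) :
    (dirFun ty o x σ w).take n = dirFun ty o x σ (w.take n) := by
  induction w generalizing n with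
  | nil => simp [dirFun]
  | cons z w ih =>
    cases n with
    | zero => simp [dirFun]
    | succ n =>
      simp only [dirFun, List.take_succ_cons]
      split_ifs
      · simp [ih]
      · simp [take_rootedFun]
      · simp

theorem dirFun_dirFun_inv (σ τ : Equiv.Perm X) (h : σ * τ = 1) (w : List X) :
    dirFun ty o x σ (dirFun ty o x τ w) = w := by
  induction w with
  | nil => rfl
  | cons z w ih =>
    by_cases h1 : z = o (ty z)
    · have : dirFun ty o x τ (z :: w) = z :: dirFun ty o x τ w := by
        simp only [dirFun]; rw [if_pos h1]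
      rw [this]
      simp only [dirFun]
      rw [if_pos h1, ih]
    · by_cases h2 : z = x (ty z)
      · have : dirFun ty o x τ (z :: w) = z :: rootedFun τ w := by
          simp only [dirFun]; rw [if_neg h1, if_pos h2]
        rw [this]
        simp only [dirFun]
        rw [if_neg h1, if_pos h2, rootedFun_rootedFun, h]
        cases w <;> simp [rootedFun]
      · have : dirFun ty o x τ (z :: w) = z :: w := by
          simp only [dirFun]; rw [if_neg h1, if_neg h2]
        rw [this]
        simp only [dirFun]
        rw [if_neg h1, if_neg h2]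

/-- The directed automorphism given by a permutation of the letters. -/
def dir (σ : Equiv.Perm X) : treeAut X :=
  ⟨{ toFun := dirFun ty o x σ
     invFun := dirFun ty o x σ⁻¹
     left_inv := dirFun_dirFun_inv ty o x σ⁻¹ σ (by simp)
     right_inv := dirFun_dirFun_inv ty o x σ σ⁻¹ (by simp) },
    fun w => ⟨length_dirFun ty o x σ w, take_dirFun ty o x σ w⟩⟩

theorem dir_nil (σ : Equiv.Perm X) : (dir ty o x σ).1 [] = [] := rfl

theorem dir_cons (σ : Equiv.Perm X) (z : X) (w : List X) :
    (dir ty o x σ).1 (z :: w) = if z = o (ty z) then z :: (dir ty o x σ).1 w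
      else if z = x (ty z) then z :: (rooted σ).1 w else z :: w := rfl

/-- The generators: rooted and directed automorphisms for all type-preserving permutations. -/
def gens : Set (treeAut X) :=
  {g | ∃ σ : Equiv.Perm X, (∀ z, ty (σ z) = ty z) ∧ (g = rooted σ ∨ g = dir ty o x σ)}

theorem gens_finite [Finite X] : (gens ty o x).Finite := by
  have : (gens ty o x) ⊆ Set.range (fun σ : Equiv.Perm X => rooted σ) ∪
      Set.range (fun σ : Equiv.Perm X => dir ty o x σ) := by
    rintro g ⟨σ, -, h | h⟩
    · exact Or.inl ⟨σ, h.symm⟩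
    · exact Or.inr ⟨σ, h.symm⟩
  exact ((Set.finite_range _).union (Set.finite_range _)).subset this

theorem rooted_mul (σ τ : Equiv.Perm X) : rooted (σ * τ) = rooted σ * rooted τ := by
  apply Subtype.ext
  ext1 w
  exact (rootedFun_rootedFun σ τ w).symm

theorem rooted_one : rooted (1 : Equiv.Perm X) = 1 := by
  apply Subtype.ext
  ext1 w
  cases w <;> rfl

theorem rooted_inv (σ : Equiv.Perm X) : (rooted σ)⁻¹ = rooted σ⁻¹ := by
  rw [inv_eq_iff_mul_eq_one, ← rooted_mul, mul_inv_cancel, rooted_one]

theorem dir_mul_inv (σ : Equiv.Perm X) : dir ty o x σ * dir ty o x σ⁻¹ = 1 := by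
  apply Subtype.ext
  ext1 w
  exact dirFun_dirFun_inv ty o x σ σ⁻¹ (by simp) w

theorem dir_inv (σ : Equiv.Perm X) : (dir ty o x σ)⁻¹ = dir ty o x σ⁻¹ := by
  rw [inv_eq_iff_mul_eq_one, dir_mul_inv]

theorem inv_mem_gens {g : treeAut X} (hg : g ∈ gens ty o x) : g⁻¹ ∈ gens ty o x := by
  obtain ⟨σ, hσ, h | h⟩ := hg
  · refine ⟨σ⁻¹, fun z => ?_, Or.inl (by rw [h, rooted_inv])⟩
    have := hσ (σ⁻¹ z)
    simpa using this.symm
  · refine ⟨σ⁻¹, fun z => ?_, Or.inr (by rw [h, dir_inv])⟩
    have := hσ (σ⁻¹ z)
    simpa using this.symm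

/-- The group generated by `gens`. -/
def grp : Subgroup (treeAut X) := Subgroup.closure (gens ty o x)

theorem grp_selfSimilar : IsSelfSimilar (grp ty o x) := by
  intro g hg
  induction hg using Subgroup.closure_induction with
  | mem g hg =>
    obtain ⟨σ, hσ, rfl | rfl⟩ := hg
    · intro z
      exact ⟨1, Subgroup.one_mem _, σ z, fun w => rfl⟩
    · intro z
      by_cases h1 : z = o (ty z)
      · refine ⟨dir ty o x σ, Subgroup.subset_closure ⟨σ, hσ, Or.inr rfl⟩, z, fun w => ?_⟩
        rw [dir_cons, if_pos h1]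
      · by_cases h2 : z = x (ty z)
        · refine ⟨rooted σ, Subgroup.subset_closure ⟨σ, hσ, Or.inl rfl⟩, z, fun w => ?_⟩
          rw [dir_cons, if_neg h1, if_pos h2]
        · refine ⟨1, Subgroup.one_mem _, z, fun w => ?_⟩
          rw [dir_cons, if_neg h1, if_neg h2]
          rfl
  | one =>
    intro z
    exact ⟨1, Subgroup.one_mem _, z, fun w => rfl⟩
  | mul g h _ _ ihg ihh =>
    intro z
    obtain ⟨h', hh', y, hy⟩ := ihh z
    obtain ⟨g', hg', y', hy'⟩ := ihg y
    refine ⟨g' * h', Subgroup.mul_mem _ hg' hh', y', fun w => ?_⟩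
    change g.1 (h.1 (z :: w)) = y' :: g'.1 (h'.1 w)
    rw [hy, hy']
  | inv g _ ih =>
    intro z
    -- the letter mapped to `z`
    have hz : ∃ y : X, g⁻¹.1 [z] = [y] := by
      have := (g⁻¹.2 [z]).1
      exact List.length_eq_one_iff.1 (by simpa using this)
    obtain ⟨y, hy⟩ := hz
    obtain ⟨h, hh, y', hy'⟩ := ih y
    have hy'z : y' = z := by
      have h1 : g.1 (g⁻¹.1 [z]) = [z] := by
        change (g * g⁻¹).1 [z] = [z]
        rw [mul_inv_cancel]; rfl
      rw [hy, hy'] at h1
      simpa using (List.cons.inj h1).1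
    subst hy'z
    refine ⟨h⁻¹, Subgroup.inv_mem _ hh, y, fun w => ?_⟩
    have h2 : g.1 (y :: (h⁻¹).1 w) = y' :: w := by
      rw [hy']
      congr 1
      change (h * h⁻¹).1 w = w
      rw [mul_inv_cancel]; rfl
    rw [← h2]
    change (g⁻¹ * g).1 _ = _
    rw [inv_mul_cancel]; rfl

/-- The Gray code number of a word. -/
def gray : List X → ℕ
  | [] => 0
  | z :: w => 2 * gray w + (if z = o (ty z) then gray w else gray w + 1) % 2

/-- Two numbers are equal or consecutive with the smaller one odd. -/
def Near (m n : ℕ) : Prop := m = n ∨ (m % 2 = 1 ∧ n = m + 1) ∨ (n % 2 = 1 ∧ m = n + 1)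

theorem gray_rooted (σ : Equiv.Perm X) (w : List X) :
    gray ty o ((rooted σ).1 w) = gray ty o w ∨
    ∃ c, (gray ty o ((rooted σ).1 w) = 2 * c ∧ gray ty o w = 2 * c + 1) ∨
      (gray ty o w = 2 * c ∧ gray ty o ((rooted σ).1 w) = 2 * c + 1) := by
  cases w with
  | nil => left; rfl
  | cons z w =>
    rw [rooted_cons]
    simp only [gray]
    by_cases h1 : σ z = o (ty (σ z)) <;> by_cases h2 : z = o (ty z)
    · left; rw [if_pos h1, if_pos h2]
    · right; refine ⟨gray ty o w, ?_⟩
      rw [if_pos h1, if_neg h2]; omega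
    · right; refine ⟨gray ty o w, ?_⟩
      rw [if_neg h1, if_pos h2]; omega
    · left; rw [if_neg h1, if_neg h2]

theorem gray_dir (hx : ∀ j, ty (x j) = j) (hox : ∀ j, o j ≠ x j)
    (σ : Equiv.Perm X) (w : List X) :
    Near (gray ty o ((dir ty o x σ).1 w)) (gray ty o w) := by
  induction w with
  | nil => left; rfl
  | cons z w ih =>
    rw [dir_cons]
    by_cases h1 : z = o (ty z)
    · rw [if_pos h1]
      simp only [gray]
      rw [if_pos h1, if_pos h1]
      unfold Near at ih ⊢
      omega
    · rw [if_neg h1]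
      by_cases h2 : z = x (ty z)
      · rw [if_pos h2]
        simp only [gray]
        rw [if_neg h1, if_neg h1]
        rcases gray_rooted ty o σ w with h | ⟨c, h | h⟩
        · left; rw [h]
        · unfold Near; omega
        · unfold Near; omega
      · rw [if_neg h2]; left; rfl

theorem gray_step (hx : ∀ j, ty (x j) = j) (hox : ∀ j, o j ≠ x j) {g : treeAut X}
    (hg : g ∈ gens ty o x) (w : List X) :
    gray ty o (g.1 w) ≤ gray ty o w + 1 ∧ gray ty o w ≤ gray ty o (g.1 w) + 1 := by
  obtain ⟨σ, -, rfl | rfl⟩ := hg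
  · rcases gray_rooted ty o σ w with h | ⟨c, h | h⟩ <;> omega
  · have := gray_dir ty o x hx hox σ w
    unfold Near at this
    omega

theorem pow_le_gray (w : List X) (i : ℕ) (hi : i < w.length) (h : w[i] ≠ o (ty w[i])) :
    2 ^ i ≤ gray ty o w := by
  induction w generalizing i with
  | nil => simp at hi
  | cons z w ih =>
    cases i with
    | zero =>
      simp only [List.getElem_cons_zero] at h
      simp only [gray]
      rw [if_neg h]
      simp only [pow_zero]
      omega
    | succ i =>
      simp only [List.getElem_cons_succ] at h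
      have := ih i (by simpa using hi) h
      simp only [gray]
      rw [pow_succ]
      omega

theorem gray_eq_zero (w : List X) (h : ∀ z ∈ w, z = o (ty z)) : gray ty o w = 0 := by
  induction w with
  | nil => rfl
  | cons z w ih =>
    simp only [gray]
    rw [if_pos (h z (by simp)), ih (fun y hy => h y (by simp [hy]))]

/-- Generators keep the types of the letters. -/
theorem map_ty {g : treeAut X} (hg : g ∈ gens ty o x) (w : List X) :
    (g.1 w).map ty = w.map ty := by
  obtain ⟨σ, hσ, rfl | rfl⟩ := hg
  · cases w with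
    | nil => rfl
    | cons z w => simp [hσ]
  · induction w with
    | nil => rfl
    | cons z w ih =>
      rw [dir_cons]
      split_ifs
      · simp [ih]
      · cases w with
        | nil => rfl
        | cons z' w => simp [hσ]
      · rfl

end Construction

section Reach

variable {X : Type} [DecidableEq X] (ty : X → Bool) (o x : Bool → X)

/-- A product of at most `n` generators maps `u w` to `v w` for every word `w`. -/
def Conn (n : ℕ) (u v : List X) : Prop :=
  ∃ l : List (treeAut X), (∀ g ∈ l, g ∈ gens ty o x) ∧ l.length ≤ n ∧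
    ∀ w, (l.prod).1 (u ++ w) = v ++ w

variable {ty o x}

theorem Conn.mono {m n : ℕ} {u v : List X} (h : Conn ty o x m u v) (hmn : m ≤ n) :
    Conn ty o x n u v := by
  obtain ⟨l, h1, h2, h3⟩ := h
  exact ⟨l, h1, h2.trans hmn, h3⟩

theorem Conn.trans {m n : ℕ} {u v w : List X} (h : Conn ty o x m u v)
    (h' : Conn ty o x n v w) : Conn ty o x (m + n) u w := by
  obtain ⟨l, h1, h2, h3⟩ := h
  obtain ⟨l', h1', h2', h3'⟩ := h'
  refine ⟨l' ++ l, ?_, ?_, ?_⟩
  · intro g hg
    rcases List.mem_append.1 hg with hg | hg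
    · exact h1' g hg
    · exact h1 g hg
  · rw [List.length_append]; omega
  · intro r
    rw [List.prod_append]
    change (l'.prod).1 ((l.prod).1 (u ++ r)) = _
    rw [h3, h3']

theorem Conn.symm {n : ℕ} {u v : List X} (h : Conn ty o x n u v) : Conn ty o x n v u := by
  obtain ⟨l, h1, h2, h3⟩ := h
  refine ⟨(l.map (fun g => g⁻¹)).reverse, ?_, ?_, ?_⟩
  · intro g hg
    rw [List.mem_reverse, List.mem_map] at hg
    obtain ⟨g', hg', rfl⟩ := hg
    exact inv_mem_gens ty o x (h1 g' hg')
  · simpa using h2
  · intro r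
    rw [← List.prod_inv_reverse, ← h3]
    change (l.prod⁻¹ * l.prod).1 (u ++ r) = _
    rw [inv_mul_cancel]; rfl

theorem Conn.app {n : ℕ} {u v : List X} (h : Conn ty o x n u v) (r : List X) :
    Conn ty o x n (u ++ r) (v ++ r) := by
  obtain ⟨l, h1, h2, h3⟩ := h
  refine ⟨l, h1, h2, fun w => ?_⟩
  rw [List.append_assoc, List.append_assoc, h3]

theorem ty_swap {z z' : X} (h : ty z = ty z') (y : X) : ty (Equiv.swap z z' y) = ty y := by
  by_cases h1 : y = z
  · subst h1; rw [Equiv.swap_apply_left, h]
  · by_cases h2 : y = z'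
    · subst h2; rw [Equiv.swap_apply_right, h]
    · rw [Equiv.swap_apply_of_ne_of_ne h1 h2]

theorem conn_single {z z' : X} (h : ty z = ty z') : Conn ty o x 1 [z] [z'] := by
  refine ⟨[rooted (Equiv.swap z z')], ?_, by simp, ?_⟩
  · intro g hg
    rw [List.mem_singleton] at hg
    exact ⟨Equiv.swap z z', ty_swap h, Or.inl hg⟩
  · intro w
    rw [List.prod_singleton]
    change (rooted (Equiv.swap z z')).1 (z :: w) = z' :: w
    rw [rooted_cons, Equiv.swap_apply_left]

theorem dir_apply (ho : ∀ j, ty (o j) = j) (hx : ∀ j, ty (x j) = j) (hox : ∀ j, o j ≠ x j)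
    (σ : Equiv.Perm X) (ts : List Bool) (j : Bool) (z : X) (w : List X) :
    (dir ty o x σ).1 (ts.map o ++ (x j :: z :: w)) = ts.map o ++ (x j :: σ z :: w) := by
  induction ts with
  | nil =>
    rw [List.map_nil, List.nil_append, List.nil_append, dir_cons, hx, if_neg (hox j).symm,
      if_pos rfl, rooted_cons]
  | cons i ts ih =>
    rw [List.map_cons, List.cons_append, List.cons_append, dir_cons, ho, if_pos rfl, ih]

theorem conn_dir (ho : ∀ j, ty (o j) = j) (hx : ∀ j, ty (x j) = j) (hox : ∀ j, o j ≠ x j)
    (ts : List Bool) (j : Bool) {z z' : X} (h : ty z = ty z') :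
    Conn ty o x 1 ((ts.map o ++ [x j]) ++ [z]) ((ts.map o ++ [x j]) ++ [z']) := by
  refine ⟨[dir ty o x (Equiv.swap z z')], ?_, by simp, ?_⟩
  · intro g hg
    rw [List.mem_singleton] at hg
    exact ⟨Equiv.swap z z', ty_swap h, Or.inr hg⟩
  · intro w
    rw [List.prod_singleton]
    have := dir_apply ho hx hox (Equiv.swap z z') ts j z w
    simpa using this

theorem conn_o_x (ho : ∀ j, ty (o j) = j) (hx : ∀ j, ty (x j) = j) (hox : ∀ j, o j ≠ x j)
    (ts : List Bool) : ∀ j : Bool,
    Conn ty o x (2 ^ (ts.length + 1) - 1) (ts.map o ++ [o j]) (ts.map o ++ [x j]) := by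
  induction ts using List.reverseRecOn with
  | nil =>
    intro j
    have h : ty (o j) = ty (x j) := by rw [ho, hx]
    exact (conn_single h).mono (by simp)
  | append_singleton ts i ih =>
    intro j
    have h : ty (o j) = ty (x j) := by rw [ho, hx]
    have h1 := (ih i).app [o j]
    have h2 := conn_dir ho hx hox ts i h
    have h3 := (ih i).symm.app [x j]
    have h4 := (h1.trans h2).trans h3
    rw [List.map_append, List.map_singleton]
    refine h4.mono ?_
    rw [List.length_append, List.length_singleton, pow_succ 2 (ts.length + 1)]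
    have : 1 ≤ 2 ^ (ts.length + 1) := Nat.one_le_two_pow
    omega

theorem conn_all (ho : ∀ j, ty (o j) = j) (hx : ∀ j, ty (x j) = j) (hox : ∀ j, o j ≠ x j)
    (u : List X) : Conn ty o x (2 ^ (u.length + 1)) u ((u.map ty).map o) := by
  induction u using List.reverseRecOn with
  | nil =>
    refine ⟨[], by simp, by simp, fun w => rfl⟩
  | append_singleton u z ih =>
    have h1 := ih.app [z]
    have hz : ty z = ty (o (ty z)) := by rw [ho]
    have h2 : Conn ty o x (2 ^ (u.length + 1)) ((u.map ty).map o ++ [z])
        ((u.map ty).map o ++ [o (ty z)]) := by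
      rcases List.eq_nil_or_concat (u.map ty) with hu | ⟨ts, i, hu⟩
      · rw [hu]
        exact (conn_single hz).mono Nat.one_le_two_pow
      · rw [hu, List.concat_eq_append, List.map_append, List.map_singleton]
        have h3 := (conn_o_x ho hx hox ts i).app [z]
        have h4 := conn_dir ho hx hox ts i hz
        have h5 := (conn_o_x ho hx hox ts i).symm.app [o (ty z)]
        refine ((h3.trans h4).trans h5).mono ?_
        have hlen : u.length = ts.length + 1 := by
          have := congrArg List.length hu
          simpa using this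
        rw [hlen, pow_succ 2 (ts.length + 1)]
        have : 1 ≤ 2 ^ (ts.length + 1) := Nat.one_le_two_pow
        omega
    rw [List.map_append, List.map_append, List.map_singleton, List.map_singleton]
    refine (h1.trans h2).mono ?_
    rw [List.length_append, List.length_singleton, pow_succ 2 (u.length + 1)]
    omega

theorem trunc_add (ξ : ℕ → X) (k m : ℕ) :
    trunc ξ (k + m) = trunc ξ k ++ (List.range m).map (fun i => ξ (k + i)) := by
  simp only [trunc, List.range_add, List.map_append, List.map_map]
  rfl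

theorem trunc_ext_of_le {ξ η : ℕ → X} (k : ℕ) (h : ∀ m, trunc ξ (k + m) = trunc η (k + m)) :
    ξ = η := by
  apply trunc_ext
  intro n
  have h1 := congrArg (List.take n) (h n)
  rw [take_trunc, take_trunc] at h1
  have : min n (k + n) = n := by omega
  rwa [this] at h1

/-- Every infinite word of the right types that differs from `ξ = o(t₀) o(t₁) ⋯` only in the first
`k` letters is reached from `ξ` by at most `2 ^ (k + 1)` generators. -/
theorem exists_list (ho : ∀ j, ty (o j) = j) (hx : ∀ j, ty (x j) = j) (hox : ∀ j, o j ≠ x j)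
    (t : ℕ → Bool) (k : ℕ) (y : ℕ → X) (hy : ∀ n, ty (y n) = t n)
    (hyk : ∀ n, k ≤ n → y n = o (t n)) :
    ∃ l : List (treeAut X), (∀ g ∈ l, g ∈ gens ty o x) ∧ l.length ≤ 2 ^ (k + 1) ∧
      bdry l.prod (fun n => o (t n)) = y := by
  obtain ⟨l, h1, h2, h3⟩ := (conn_all (ty := ty) ho hx hox (trunc y k)).symm
  rw [length_trunc] at h2
  refine ⟨l, h1, h2, ?_⟩
  have h4 : ((trunc y k).map ty).map o = trunc (fun n => o (t n)) k := by
    simp only [trunc, List.map_map]
    apply List.map_congr_left
    intro n _
    simp [hy n]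
  rw [h4] at h3
  apply trunc_ext_of_le k
  intro m
  rw [trunc_bdry, trunc_add, trunc_add, h3]
  congr 1
  apply List.map_congr_left
  intro i _
  rw [hyk (k + i) (by omega)]

end Reach

section Count

variable {X : Type} [DecidableEq X] [Finite X] {ty : X → Bool} {o x : Bool → X}

/-- The infinite words of types `t` that agree with `o(t₀) o(t₁) ⋯` from position `k` on. -/
def tile (ty : X → Bool) (o : Bool → X) (t : ℕ → Bool) (k : ℕ) : Set (ℕ → X) :=
  {y | (∀ n, ty (y n) = t n) ∧ ∀ n, k ≤ n → y n = o (t n)}

/-- Parametrisation of `tile`. -/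
def tileMap (o : Bool → X) (t : ℕ → Bool) (k : ℕ) (f : ∀ i : Fin k, {z : X // ty z = t i}) :
    ℕ → X := fun n => if h : n < k then (f ⟨n, h⟩).1 else o (t n)

omit [DecidableEq X] [Finite X] in
theorem tileMap_injective (t : ℕ → Bool) (k : ℕ) :
    Function.Injective (tileMap (ty := ty) o t k) := by
  intro f g h
  funext i
  apply Subtype.ext
  have := congrFun h i
  simpa [tileMap] using this

omit [DecidableEq X] [Finite X] in
theorem range_tileMap (ho : ∀ j, ty (o j) = j) (t : ℕ → Bool) (k : ℕ) :
    Set.range (tileMap (ty := ty) o t k) = tile ty o t k := by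
  ext y
  constructor
  · rintro ⟨f, rfl⟩
    constructor
    · intro n
      by_cases h : n < k
      · simp only [tileMap, dif_pos h]
        exact (f ⟨n, h⟩).2
      · simp only [tileMap, dif_neg h]
        rw [ho]
    · intro n hn
      simp only [tileMap, dif_neg (not_lt.2 hn)]
  · rintro ⟨h1, h2⟩
    refine ⟨fun i => ⟨y i, h1 i⟩, ?_⟩
    funext n
    by_cases h : n < k
    · simp only [tileMap, dif_pos h]
    · simp only [tileMap, dif_neg h]
      rw [h2 n (not_lt.1 h)]

omit [DecidableEq X] in
theorem tile_finite (ho : ∀ j, ty (o j) = j) (t : ℕ → Bool) (k : ℕ) :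
    (tile ty o t k).Finite := by
  rw [← range_tileMap ho]
  exact Set.finite_range _

omit [DecidableEq X] in
theorem ncard_tile (ho : ∀ j, ty (o j) = j) (t : ℕ → Bool) (k : ℕ) :
    (tile ty o t k).ncard = ∏ i : Fin k, Nat.card {z : X // ty z = t i} := by
  rw [← range_tileMap ho, ← Nat.card_pi]
  change Nat.card (Set.range (tileMap (ty := ty) o t k)) = _
  exact Nat.card_range_of_injective (tileMap_injective t k)

variable (ty o x)

/-- The generating set of the group `grp`, as a set of elements of `grp`. -/
def gset : Set (grp ty o x) := Subtype.val ⁻¹' (gens ty o x)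

/-- The boundary point `o(t₀) o(t₁) ⋯`. -/
def pt (t : ℕ → Bool) : ℕ → X := fun n => o (t n)

/-- The Schreier graph of the group `grp` at the point `pt`. -/
abbrev Sch (t : ℕ → Bool) : SimpleGraph (grp ty o x ⧸ MulAction.stabilizer (grp ty o x) (pt o t)) :=
  schreier (MulAction.stabilizer (grp ty o x) (pt o t)) (gset ty o x)

/-- The base vertex. -/
abbrev base (t : ℕ → Bool) : grp ty o x ⧸ MulAction.stabilizer (grp ty o x) (pt o t) :=
  ((1 : grp ty o x) : grp ty o x ⧸ MulAction.stabilizer (grp ty o x) (pt o t))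

/-- The embedding of the vertices into the boundary. -/
abbrev emb (t : ℕ → Bool) :
    (grp ty o x ⧸ MulAction.stabilizer (grp ty o x) (pt o t)) → (ℕ → X) :=
  MulAction.ofQuotientStabilizer (grp ty o x) (pt o t)

omit [Finite X] in
theorem emb_smul (t : ℕ → Bool) (g : grp ty o x)
    (a : grp ty o x ⧸ MulAction.stabilizer (grp ty o x) (pt o t)) :
    emb ty o x t (g • a) = bdry g.1 (emb ty o x t a) :=
  MulAction.ofQuotientStabilizer_smul _ _ g a

omit [Finite X] in
theorem emb_base (t : ℕ → Bool) : emb ty o x t (base ty o x t) = pt o t := by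
  have : emb ty o x t (base ty o x t) = (1 : grp ty o x) • pt o t :=
    MulAction.ofQuotientStabilizer_mk _ _ _
  rw [this, one_smul]

theorem gset_finite : (gset ty o x).Finite :=
  (gens_finite ty o x).preimage Subtype.val_injective.injOn

omit [Finite X] in
theorem gset_closure : Subgroup.closure (gset ty o x) = ⊤ :=
  Subgroup.closure_closure_coe_preimage

variable {ty o x}

omit [Finite X] in
theorem gray_le_of_mem_ball (ho : ∀ j, ty (o j) = j) (hx : ∀ j, ty (x j) = j)
    (hox : ∀ j, o j ≠ x j) (t : ℕ → Bool) (n : ℕ) :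
    ∀ u ∈ ball (Sch ty o x t) (base ty o x t) n, ∀ N,
      gray ty o (trunc (emb ty o x t u) N) ≤ n ∧
      (trunc (emb ty o x t u) N).map ty = trunc t N := by
  induction n with
  | zero =>
    intro u hu N
    rw [ball_zero] at hu
    rw [Set.mem_singleton_iff.1 hu, emb_base]
    constructor
    · rw [gray_eq_zero]
      intro z hz
      simp only [trunc, pt, List.mem_map] at hz
      obtain ⟨i, -, rfl⟩ := hz
      rw [ho]
    · simp only [trunc, List.map_map]
      apply List.map_congr_left
      intro i _
      simp [pt, ho]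
  | succ n ih =>
    intro u hu N
    rcases exists_of_mem_ball_succ hu with h | ⟨v, hv, hadj⟩
    · exact ⟨(ih u h N).1.trans (Nat.le_succ n), (ih u h N).2⟩
    · obtain ⟨h1, h2⟩ := ih v hv N
      obtain ⟨s, hs, h | h⟩ := schreier_adj hadj
      · have h3 : emb ty o x t u = bdry s.1 (emb ty o x t v) := by rw [← h, emb_smul]
        rw [h3, trunc_bdry]
        refine ⟨((gray_step ty o x hx hox hs _).1).trans (by omega), ?_⟩
        rw [map_ty ty o x hs, h2]
      · have h3 : emb ty o x t v = bdry s.1 (emb ty o x t u) := by rw [← h, emb_smul]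
        rw [h3, trunc_bdry] at h1 h2
        refine ⟨((gray_step ty o x hx hox hs _).2).trans (by omega), ?_⟩
        rw [← h2, map_ty ty o x hs]

theorem image_ball_subset (ho : ∀ j, ty (o j) = j) (hx : ∀ j, ty (x j) = j)
    (hox : ∀ j, o j ≠ x j) (t : ℕ → Bool) (n k : ℕ) (hnk : n < 2 ^ k) :
    emb ty o x t '' ball (Sch ty o x t) (base ty o x t) n ⊆ tile ty o t k := by
  rintro y ⟨u, hu, rfl⟩
  have key := gray_le_of_mem_ball ho hx hox t n u hu
  have hty : ∀ m, ty (emb ty o x t u m) = t m := by
    intro m
    have h1 := (key (m + 1)).2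
    have h2 := congrArg (fun l => l[m]?) h1
    simp only [trunc, List.map_map, List.getElem?_map] at h2
    rw [List.getElem?_range (Nat.lt_succ_self m)] at h2
    simpa using h2
  refine ⟨hty, fun m hm => ?_⟩
  by_contra hne
  have h1 := (key (m + 1)).1
  have h2 : 2 ^ m ≤ gray ty o (trunc (emb ty o x t u) (m + 1)) := by
    apply pow_le_gray ty o _ m (by rw [length_trunc]; omega)
    simp only [trunc, List.getElem_map, List.getElem_range]
    rw [hty m]
    exact hne
  have h3 : 2 ^ k ≤ 2 ^ m := Nat.pow_le_pow_right (by norm_num) hm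
  omega

omit [Finite X] in
theorem tile_subset_image (ho : ∀ j, ty (o j) = j) (hx : ∀ j, ty (x j) = j)
    (hox : ∀ j, o j ≠ x j) (t : ℕ → Bool) (k : ℕ) :
    tile ty o t k ⊆ emb ty o x t '' ball (Sch ty o x t) (base ty o x t) (2 ^ (k + 1)) := by
  rintro y ⟨h1, h2⟩
  obtain ⟨l, hl, hlen, hy⟩ := exists_list ho hx hox t k y h1 h2
  -- transfer the list to the group
  have key : ∀ l : List (treeAut X), (∀ g ∈ l, g ∈ gens ty o x) →
      ∃ u ∈ ball (Sch ty o x t) (base ty o x t) l.length,
        emb ty o x t u = bdry l.prod (pt o t) := by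
    intro l
    induction l with
    | nil =>
      intro _
      refine ⟨base ty o x t, self_mem_ball, ?_⟩
      rw [emb_base]
      exact (one_smul (treeAut X) (pt o t)).symm
    | cons g l ih =>
      intro hl
      obtain ⟨u, hu, hu'⟩ := ih (fun g' hg' => hl g' (List.mem_cons_of_mem _ hg'))
      have hg : g ∈ gens ty o x := hl g List.mem_cons_self
      let s : grp ty o x := ⟨g, Subgroup.subset_closure hg⟩
      have hs : s ∈ gset ty o x := hg
      refine ⟨s • u, smul_mem_ball hu hs, ?_⟩
      rw [emb_smul, hu', List.prod_cons]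
      exact (mul_smul g l.prod (pt o t)).symm
  obtain ⟨u, hu, hu'⟩ := key l hl
  exact ⟨u, ball_mono hlen hu, hu'.trans hy⟩

theorem ncard_ball_le (ho : ∀ j, ty (o j) = j) (hx : ∀ j, ty (x j) = j)
    (hox : ∀ j, o j ≠ x j) (t : ℕ → Bool) (n k : ℕ) (hnk : n < 2 ^ k) :
    (ball (Sch ty o x t) (base ty o x t) n).ncard ≤
      ∏ i : Fin k, Nat.card {z : X // ty z = t i} := by
  rw [← ncard_tile ho t k, ← Set.ncard_image_of_injective _
    (MulAction.injective_ofQuotientStabilizer (grp ty o x) (pt o t))]
  exact Set.ncard_le_ncard (image_ball_subset ho hx hox t n k hnk) (tile_finite ho t k)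

theorem le_ncard_ball (ho : ∀ j, ty (o j) = j) (hx : ∀ j, ty (x j) = j)
    (hox : ∀ j, o j ≠ x j) (t : ℕ → Bool) (n k : ℕ) (hnk : 2 ^ (k + 1) ≤ n) :
    ∏ i : Fin k, Nat.card {z : X // ty z = t i} ≤
      (ball (Sch ty o x t) (base ty o x t) n).ncard := by
  rw [← ncard_tile ho t k, ← Set.ncard_image_of_injective _
    (MulAction.injective_ofQuotientStabilizer (grp ty o x) (pt o t))]
  refine Set.ncard_le_ncard ((tile_subset_image ho hx hox t k).trans
    (Set.image_mono (ball_mono hnk))) ?_
  exact ((ball_finite (gset_finite ty o x) _ _).image _)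

end Count

section Main

/-- The greedy sizes: multiply by `q` while below `a ^ k`, and by `2` otherwise. -/
noncomputable def size (a : ℝ) (q : ℕ) : ℕ → ℕ
  | 0 => 1
  | k + 1 => if (size a q k : ℝ) < a ^ k then q * size a q k else 2 * size a q k

/-- The greedy type sequence (`true`: two letters, `false`: `q` letters). -/
noncomputable def types (a : ℝ) (q : ℕ) (k : ℕ) : Bool :=
  @decide (¬ (size a q k : ℝ) < a ^ k) (Classical.propDecidable _)

theorem size_bounds {a : ℝ} {q : ℕ} (ha : 2 ≤ a) (hq : a ≤ q) (k : ℕ) :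
    a ^ k ≤ a * size a q k ∧ (size a q k : ℝ) ≤ q * a ^ k := by
  induction k with
  | zero =>
    simp only [size, pow_zero, Nat.cast_one]
    constructor <;> linarith
  | succ k ih =>
    obtain ⟨h1, h2⟩ := ih
    have ha0 : (0 : ℝ) < a := by linarith
    have hak : (0 : ℝ) < a ^ k := by positivity
    have hs : (0 : ℝ) ≤ size a q k := by positivity
    have hq0 : (0 : ℝ) < q := by linarith
    simp only [size]
    split_ifs with h
    · push_cast
      rw [pow_succ]
      constructor
      · calc a ^ k * a ≤ (a * size a q k) * a := by gcongr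
          _ ≤ (a * size a q k) * q := by gcongr
          _ = a * (q * size a q k) := by ring
      · calc (q : ℝ) * size a q k ≤ q * a ^ k := by gcongr
          _ ≤ q * (a ^ k * a) := by
            have : a ^ k * 1 ≤ a ^ k * a := by gcongr; linarith
            rw [mul_one] at this
            gcongr
    · rw [not_lt] at h
      push_cast
      rw [pow_succ]
      constructor
      · nlinarith
      · nlinarith

theorem prod_types {a : ℝ} {q : ℕ} {c : Bool → ℕ} (ht : c true = 2) (hf : c false = q) (k : ℕ) :
    ∏ i : Fin k, c (types a q i) = size a q k := by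
  induction k with
  | zero => simp [size]
  | succ k ih =>
    rw [Fin.prod_univ_castSucc]
    simp only [Fin.val_castSucc, Fin.val_last]
    rw [ih]
    simp only [size]
    split_ifs with h
    · have : types a q k = false := by
        unfold types
        simp [h]
      rw [this, hf, mul_comm]
    · have : types a q k = true := by
        unfold types
        simp only [h, not_false_eq_true]
        simp
      rw [this, ht, mul_comm]

/-- Every real `α ≥ 1` is a degree of polynomial growth. -/
theorem mem_degrees {α : ℝ} (hα : 1 ≤ α) : α ∈ degrees := by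
  set a : ℝ := 2 ^ α with ha_def
  have ha : 2 ≤ a := by
    have := Real.rpow_le_rpow_of_exponent_le (x := 2) (by norm_num) hα
    rwa [Real.rpow_one] at this
  have ha0 : 0 < a := by linarith
  obtain ⟨q, hq⟩ := exists_nat_ge a
  have hq2 : 2 ≤ q := by exact_mod_cast ha.trans hq
  -- the alphabet
  let ty : Fin (q + 2) → Bool := fun z => decide (z.val < 2)
  let o : Bool → Fin (q + 2) := fun j => if j then ⟨0, by omega⟩ else ⟨2, by omega⟩
  let x : Bool → Fin (q + 2) := fun j => if j then ⟨1, by omega⟩ else ⟨3, by omega⟩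
  have ho : ∀ j, ty (o j) = j := by intro j; cases j <;> simp [ty, o]
  have hx : ∀ j, ty (x j) = j := by intro j; cases j <;> simp [ty, x]
  have hox : ∀ j, o j ≠ x j := by
    intro j
    cases j <;> simp [o, x]
  have hct : Nat.card {z : Fin (q + 2) // ty z = true} = 2 := by
    rw [Nat.card_eq_fintype_card, Fintype.card_subtype]
    have : (Finset.univ.filter fun z : Fin (q + 2) => ty z = true) =
        {⟨0, by omega⟩, ⟨1, by omega⟩} := by
      ext z
      simp only [ty, decide_eq_true_eq, Finset.mem_filter, Finset.mem_univ, true_and,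
        Finset.mem_insert, Finset.mem_singleton, Fin.ext_iff]
      omega
    rw [this]
    rw [Finset.card_pair]
    simp
  have hcf : Nat.card {z : Fin (q + 2) // ty z = false} = q := by
    have h1 : Nat.card {z : Fin (q + 2) // ¬ ty z = true} = q := by
      rw [Nat.card_eq_fintype_card] at hct ⊢
      rw [Fintype.card_subtype_compl, hct, Fintype.card_fin]
      omega
    refine Eq.trans ?_ h1
    apply Nat.card_congr
    exact Equiv.subtypeEquivRight (fun z => by simp)
  let t : ℕ → Bool := types a q
  have hprod : ∀ k, ∏ i : Fin k, Nat.card {z : Fin (q + 2) // ty z = t i} = size a q k :=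
    fun k => prod_types (c := fun j => Nat.card {z : Fin (q + 2) // ty z = j}) hct hcf k
  -- bounds for the balls
  have hbup : ∀ n k : ℕ, n < 2 ^ k →
      ((ball (Sch ty o x t) (base ty o x t) n).ncard : ℝ) ≤ q * a ^ k := by
    intro n k hnk
    have h1 := ncard_ball_le ho hx hox t n k hnk
    rw [hprod] at h1
    exact (Nat.cast_le.2 h1).trans (size_bounds ha hq k).2
  have hblow : ∀ n k : ℕ, 2 ^ (k + 1) ≤ n →
      a ^ k ≤ a * ((ball (Sch ty o x t) (base ty o x t) n).ncard : ℝ) := by
    intro n k hnk
    have h1 := le_ncard_ball ho hx hox t n k hnk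
    rw [hprod] at h1
    refine (size_bounds ha hq k).1.trans ?_
    have : ((size a q k : ℕ) : ℝ) ≤ (ball (Sch ty o x t) (base ty o x t) n).ncard := by
      exact_mod_cast h1
    gcongr
  have hpow : ∀ k : ℕ, ((2 ^ k : ℕ) : ℝ) ^ α = a ^ k := by
    intro k
    rw [ha_def, ← Real.rpow_natCast (2 ^ α) k, ← Real.rpow_mul (by norm_num), mul_comm,
      Real.rpow_mul (by norm_num), Real.rpow_natCast]
    push_cast
    rfl
  have hconn := schreier_reachable (P := MulAction.stabilizer (grp ty o x) (pt o t))
    (gset_closure ty o x)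
  have hfin := ball_finite (P := MulAction.stabilizer (grp ty o x) (pt o t))
    (gset_finite ty o x)
  refine ⟨by linarith, q + 2, by omega, grp ty o x, grp_selfSimilar ty o x, gset ty o x,
    gset_finite ty o x, gset_closure ty o x, pt o t, ?_, ?_⟩
  · -- the orbit is infinite
    intro hfinorb
    have h1 : (Set.range (emb ty o x t)).Finite := by
      refine hfinorb.subset ?_
      rintro y ⟨u, rfl⟩
      exact MulAction.ofQuotientStabilizer_mem_orbit _ _ u
    have h2 : Finite (grp ty o x ⧸ MulAction.stabilizer (grp ty o x) (pt o t)) :=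
      Set.finite_range_iff (MulAction.injective_ofQuotientStabilizer _ _) |>.1 h1
    have h3 : ∀ k : ℕ, a ^ k ≤
        a * (Nat.card (grp ty o x ⧸ MulAction.stabilizer (grp ty o x) (pt o t)) : ℝ) := by
      intro k
      refine (hblow _ k le_rfl).trans ?_
      have : (ball (Sch ty o x t) (base ty o x t) (2 ^ (k + 1))).ncard ≤
          Nat.card (grp ty o x ⧸ MulAction.stabilizer (grp ty o x) (pt o t)) := by
        rw [← Set.ncard_univ]
        exact Set.ncard_le_ncard (Set.subset_univ _)
      have : ((ball (Sch ty o x t) (base ty o x t) (2 ^ (k + 1))).ncard : ℝ) ≤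
          Nat.card (grp ty o x ⧸ MulAction.stabilizer (grp ty o x) (pt o t)) := by
        exact_mod_cast this
      gcongr
    obtain ⟨k, hk⟩ := pow_unbounded_of_one_lt
      (a * (Nat.card (grp ty o x ⧸ MulAction.stabilizer (grp ty o x) (pt o t)) : ℝ))
      (by linarith : 1 < a)
    exact absurd (h3 k) (not_le.2 hk)
  · -- growth
    refine hasPolynomialGrowth_of_bounds (c := 1 / a ^ 3) (C := q * a) hconn hfin
      (by linarith) (by positivity) (base ty o x t) ?_ ?_
    · intro n hn
      set k := Nat.log 2 n with hk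
      have hn0 : n ≠ 0 := by omega
      have h1 : 2 ^ k ≤ n := Nat.pow_log_le_self 2 hn0
      have h2 : n < 2 ^ (k + 1) := Nat.lt_pow_succ_log_self (by norm_num) n
      have hk1 : 1 ≤ k := by
        rw [hk]
        exact (Nat.le_log_iff_pow_le (by norm_num) hn0).2 (by simpa using hn)
      have h3 := hblow n (k - 1) (by rwa [Nat.sub_add_cancel hk1])
      have h4 : ((n : ℕ) : ℝ) ^ α ≤ a ^ (k + 1) := by
        rw [← hpow]
        apply Real.rpow_le_rpow (by positivity) _ (by linarith)
        exact_mod_cast h2.le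
      have h5 : a ^ (k + 1) = a ^ 2 * a ^ (k - 1) := by
        rw [← pow_add]; congr 1; omega
      rw [div_mul_eq_mul_div, one_mul, div_le_iff₀ (by positivity)]
      calc ((n : ℕ) : ℝ) ^ α ≤ a ^ (k + 1) := h4
        _ = a ^ 2 * a ^ (k - 1) := h5
        _ ≤ a ^ 2 * (a * ((ball (Sch ty o x t) (base ty o x t) n).ncard : ℝ)) := by gcongr
        _ = _ := by ring
    · intro n hn
      set k := Nat.log 2 n with hk
      have hn0 : n ≠ 0 := by omega
      have h1 : 2 ^ k ≤ n := Nat.pow_log_le_self 2 hn0
      have h2 : n < 2 ^ (k + 1) := Nat.lt_pow_succ_log_self (by norm_num) n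
      have h3 := hbup n (k + 1) h2
      have h4 : a ^ k ≤ ((n : ℕ) : ℝ) ^ α := by
        rw [← hpow]
        apply Real.rpow_le_rpow (by positivity) _ (by linarith)
        exact_mod_cast h1
      calc ((ball (Sch ty o x t) (base ty o x t) n).ncard : ℝ) ≤ q * a ^ (k + 1) := h3
        _ = q * a * a ^ k := by ring
        _ ≤ q * a * ((n : ℕ) : ℝ) ^ α := by gcongr

/-- **Main theorem.** The set of all degrees of polynomial growth of Schreier graphs of finitely
generated self-similar groups at boundary points with infinite orbit is exactly `[1, ∞)`. -/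
theorem result : degrees = Set.Ici 1 := by
  ext α
  constructor
  · rintro ⟨-, d, -, L, -, S, hSfin, hS, ξ, horb, hgrow⟩
    have hinf : Infinite (L ⧸ MulAction.stabilizer L ξ) := by
      have h1 : Infinite (MulAction.orbit L ξ) := horb.to_subtype
      exact (MulAction.orbitEquivQuotientStabilizer L ξ).infinite_iff.1 h1
    exact one_le_of_hasPolynomialGrowth (schreier_reachable hS) hinf (ball_finite hSfin) hgrow
  · intro h
    exact mem_degrees h

end Main

end Pool.Agent.Results.MP_e8676d_al.GrowthDegrees
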